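import Pool.Agent.H43.SAK.Stmts

/-! Project SAK: module DR (helper5). -/

namespace Pool.Agent.H43.SAK

open Finset

theorem dr : DrSt := by
  classical
  intro p _ V _ _ _ D hD
  have hex : ∃ m : ℕ, ∃ L : V →ₗ[ZMod p] (Fin m → ZMod p), Set.InjOn L (D : Set V) := by
    refine ⟨Module.finrank (ZMod p) V, (Module.finBasis (ZMod p) V).equivFun.toLinearMap, ?_⟩
    exact (Module.finBasis (ZMod p) V).equivFun.injective.injOn
  let m := Nat.find hex
  obtain ⟨L, hL⟩ : ∃ L : V →ₗ[ZMod p] (Fin m → ZMod p), Set.InjOn L (D : Set V) := Nat.find_spec hex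
  refine ⟨m, ?_, L, hL⟩
  have key : ∀ u : Fin m → ZMod p, ∃ μ : ZMod p, ∃ d ∈ D, ∃ d' ∈ D, μ • (L d - L d') = u := by
    intro u
    by_cases hu : u = 0
    · obtain ⟨d, hd⟩ := hD
      exact ⟨0, d, hd, d, hd, by rw [hu, zero_smul]⟩
    by_contra hcon
    push Not at hcon
    -- project along `u`
    have hfr : Module.finrank (ZMod p) ((Fin m → ZMod p) ⧸ Submodule.span (ZMod p) {u}) + 1 = m := by
      have h1 := Submodule.finrank_quotient_add_finrank (Submodule.span (ZMod p) {u})
      rw [finrank_span_singleton hu] at h1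
      simpa using h1
    set m' := Module.finrank (ZMod p) ((Fin m → ZMod p) ⧸ Submodule.span (ZMod p) {u}) with hm'
    let b := (Module.finBasis (ZMod p) ((Fin m → ZMod p) ⧸ Submodule.span (ZMod p) {u})).equivFun
    let L' : V →ₗ[ZMod p] (Fin m' → ZMod p) :=
      b.toLinearMap ∘ₗ (Submodule.span (ZMod p) {u}).mkQ ∘ₗ L
    have hL' : Set.InjOn L' (D : Set V) := by
      intro d hd d' hd' h
      have h1 : (Submodule.span (ZMod p) {u}).mkQ (L d) = (Submodule.span (ZMod p) {u}).mkQ (L d') :=
        b.injective h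
      rw [Submodule.mkQ_apply, Submodule.mkQ_apply, Submodule.Quotient.eq,
        Submodule.mem_span_singleton] at h1
      obtain ⟨ν, hν⟩ := h1
      by_cases hν0 : ν = 0
      · rw [hν0, zero_smul] at hν
        exact hL hd hd' (sub_eq_zero.1 hν.symm)
      · exfalso
        refine hcon ν⁻¹ d hd d' hd' ?_
        rw [← hν, smul_smul, inv_mul_cancel₀ hν0, one_smul]
    have := Nat.find_min' hex ⟨L', hL'⟩
    change m ≤ m' at this
    omega
  have hcard : Fintype.card (Fin m → ZMod p) ≤ ((Finset.univ : Finset (ZMod p)) ×ˢ (D ×ˢ D)).card := by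
    rw [← Finset.card_univ]
    refine Finset.card_le_card_of_surjOn (fun x => x.1 • (L x.2.1 - L x.2.2)) ?_
    intro u _
    obtain ⟨μ, d, hd, d', hd', h⟩ := key u
    refine ⟨(μ, d, d'), ?_, h⟩
    rw [Finset.mem_coe, Finset.mem_product, Finset.mem_product]
    exact ⟨Finset.mem_univ _, hd, hd'⟩
  rw [Finset.card_product, Finset.card_product, Finset.card_univ, ZMod.card, Fintype.card_fun, ZMod.card,
    Fintype.card_fin] at hcard
  calc p ^ m ≤ p * (D.card * D.card) := hcard
    _ = D.card ^ 2 * p := by ring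

end Pool.Agent.H43.SAK
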