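import Pool.Agent.H43.SAK.Stmts

/-! Project SAK: module MON (helper5). -/

namespace Pool.Agent.H43.SAK

open Finset

theorem mon : MonSt := by
  classical
  intro p m _ D
  -- the box of exponents
  let ι := {α : Fin m → ℕ // ∀ i, α i ≤ p - 1}
  let e : ι → (D → ZMod p) := fun α v => ∏ i, v.1 i ^ α.1 i
  have hspan : Submodule.span (ZMod p) (Set.range e) = ⊤ := by
    rw [eq_top_iff]
    intro f _
    let g : (Fin m → ZMod p) → ZMod p := fun v => if h : v ∈ D then f ⟨v, h⟩ else 0
    have hg : g ∈ (MvPolynomial.restrictDegree (Fin m) (ZMod p) (Fintype.card (ZMod p) - 1)).map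
        (MvPolynomial.evalₗ (ZMod p) (Fin m)) := by
      rw [MvPolynomial.map_restrict_dom_evalₗ]
      trivial
    rw [Submodule.mem_map] at hg
    obtain ⟨P, hPm, hP⟩ := hg
    rw [MvPolynomial.mem_restrictDegree, ZMod.card] at hPm
    have hdeg : ∀ α ∈ P.support, ∀ i, α i ≤ p - 1 := fun α hα i => hPm α hα i
    have hf : f = ∑ α ∈ P.support.attach,
        (MvPolynomial.coeff α.1 P) • e ⟨fun i => α.1 i, hdeg α.1 α.2⟩ := by
      funext v
      have h1 := congrFun hP v.1
      have h2 : MvPolynomial.evalₗ (ZMod p) (Fin m) P v.1 = MvPolynomial.eval v.1 P := rfl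
      rw [h2, MvPolynomial.eval_eq'] at h1
      have h3 : g v.1 = f v := by
        show (if h : v.1 ∈ D then f ⟨v.1, h⟩ else 0) = f v
        rw [dif_pos v.2]
      rw [← h3, ← h1, Finset.sum_apply, ← Finset.sum_attach]
      rfl
    rw [hf]
    exact Submodule.sum_mem _ (fun α _ => Submodule.smul_mem _ _ (Submodule.subset_span ⟨_, rfl⟩))
  obtain ⟨κ, a, hinj, hs, hli⟩ := exists_linearIndependent' (ZMod p) e
  rw [hspan] at hs
  let b := Module.Basis.mk hli hs.ge
  have : Finite κ := by
    have : Module.Finite (ZMod p) (D → ZMod p) := inferInstance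
    exact Module.Finite.finite_basis b
  have := Fintype.ofFinite κ
  have hcard : Fintype.card κ = D.card := by
    rw [← Module.finrank_eq_card_basis b, Module.finrank_fintype_fun_eq_card, Fintype.card_coe]
  have hinj' : Function.Injective (fun k : κ => (a k).1) := fun x y h => hinj (Subtype.ext h)
  refine ⟨Finset.univ.image (fun k : κ => (a k).1), ?_, ?_, ?_⟩
  · rw [Finset.card_image_of_injective _ hinj', Finset.card_univ, hcard]
  · intro α hα
    rw [Finset.mem_image] at hα
    obtain ⟨k, -, rfl⟩ := hα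
    exact (a k).2
  · intro c hc α hα
    rw [Finset.mem_image] at hα
    obtain ⟨k, -, rfl⟩ := hα
    rw [Fintype.linearIndependent_iff] at hli
    refine hli (fun k => c (a k).1) ?_ k
    funext v
    have h1 := hc v.1 v.2
    rw [Finset.sum_image (fun x _ y _ h => hinj' h)] at h1
    rw [Finset.sum_apply, Pi.zero_apply, ← h1]
    rfl

end Pool.Agent.H43.SAK
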